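import Mathlib
import Pool.Agent.U671.PG.Geo

/-!
# Miquel's theorem in inversive planes of non-prime-power order: statements (project MQ)
-/

set_option autoImplicit false

namespace Pool.Agent.U37.MQ

open Finset Equiv Pool.Agent.N606.ST Pool.Agent.U671.PG

open scoped Classical

/-- An inversive plane of order `n`, that is, a Steiner system `S(n ^ 2 + 1, n + 1, 3)`. -/
def Inversive {V : Type} [Fintype V] (n : ℕ) (B : Finset (Finset V)) : Prop :=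
  Fintype.card V = n ^ 2 + 1 ∧ (∀ b ∈ B, b.card = n + 1) ∧
    ∀ T : Finset V, T.card = 3 → ∃! b, b ∈ B ∧ T ⊆ b

/-- Some circle meets `g` exactly in `x, x'` and `k` exactly in `y, y'` (it touches `g` if
`x = x'` and it touches `k` if `y = y'`). -/
def Link {V : Type} (B : Finset (Finset V)) (g k : Finset V) (x x' y y' : V) : Prop :=
  ∃ b ∈ B, b ∩ g = {x, x'} ∧ b ∩ k = {y, y'}

/-- The failures of Miquel's theorem at the pair of circles `g, k`: four distinct points `x i` of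
`g`, not on `k`, and four points `y i` of `k`, not on `g`, with three of the four links. -/
noncomputable def fails {V : Type} [Fintype V] (B : Finset (Finset V)) (g k : Finset V) :
    Finset ((Fin 4 → V) × (Fin 4 → V)) :=
  univ.filter fun t => Function.Injective t.1 ∧
    (∀ i, t.1 i ∈ g ∧ t.1 i ∉ k ∧ t.2 i ∈ k ∧ t.2 i ∉ g) ∧
    Link B g k (t.1 0) (t.1 1) (t.2 0) (t.2 1) ∧ Link B g k (t.1 1) (t.1 2) (t.2 1) (t.2 2) ∧
    Link B g k (t.1 2) (t.1 3) (t.2 2) (t.2 3) ∧ ¬ Link B g k (t.1 3) (t.1 0) (t.2 3) (t.2 0)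

/-- elementary facts on inversive planes -/
structure Inc {V : Type} [Fintype V] (n : ℕ) (B : Finset (Finset V)) : Prop where
  cV : Fintype.card V = n ^ 2 + 1
  cb : ∀ b ∈ B, b.card = n + 1
  ex3 : ∀ x y z, x ≠ y → x ≠ z → y ≠ z → ∃ b ∈ B, x ∈ b ∧ y ∈ b ∧ z ∈ b
  eq3 : ∀ x y z, x ≠ y → x ≠ z → y ≠ z → ∀ b ∈ B, ∀ c ∈ B, x ∈ b → y ∈ b → z ∈ b →
    x ∈ c → y ∈ c → z ∈ c → b = c
  two : ∀ b ∈ B, ∀ c ∈ B, b ≠ c → (b ∩ c).card ≤ 2
  touch : ∀ g ∈ B, ∀ x ∈ g, ∀ y, y ∉ g → ∃ b ∈ B, y ∈ b ∧ b ∩ g = {x}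
  touch_eq : ∀ g ∈ B, ∀ x ∈ g, ∀ y, y ∉ g → ∀ b ∈ B, ∀ c ∈ B, y ∈ b → b ∩ g = {x} →
    y ∈ c → c ∩ g = {x} → b = c
  cB : B.card = n * (n ^ 2 + 1)
  cx : ∀ x, (B.filter fun b => x ∈ b).card = n ^ 2 + n
  cxy : ∀ x y, x ≠ y → (B.filter fun b => x ∈ b ∧ y ∈ b).card = n + 1

/-- package INC -/
def S_INC : Prop := ∀ (V : Type) [Fintype V] (n : ℕ) (B : Finset (Finset V)), 2 ≤ n →
  Inversive n B → Inc n B

/-- package DIR: the directions (classes of circles touching at `X`) of the circles through `X` -/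
def S_DIR : Prop := ∀ (V : Type) [Fintype V] (n : ℕ) (B : Finset (Finset V)) (X : V), 2 ≤ n →
  Inc n B → ∃ d : Finset V → Fin (n + 1),
    (∀ g ∈ B, X ∈ g → ∀ h ∈ B, X ∈ h → (d g = d h ↔ g = h ∨ g ∩ h = {X})) ∧
    ∀ i y, y ≠ X → ∃ g ∈ B, X ∈ g ∧ y ∈ g ∧ d g = i

/-- The projective plane `B'` on `V'` which belongs to the point `X` of the inversive plane `B`:
its points are the `pt y`, `y ≠ X`, and the directions `dir g` of the circles `g` through `X`, its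
lines are the `ln g`, `g` a circle through `X`, and the line `inf`. -/
structure Clos {V V' : Type} [Fintype V] [Fintype V'] (n : ℕ) (B : Finset (Finset V)) (X : V)
    (B' : Finset (Finset V')) (pt : V → V') (dir : Finset V → V') (ln : Finset V → Finset V')
    (inf : Finset V') : Prop where
  plane : Plane n B'
  pt_inj : ∀ y z, y ≠ X → z ≠ X → pt y = pt z → y = z
  pt_dir : ∀ y, y ≠ X → ∀ g ∈ B, X ∈ g → pt y ≠ dir g
  dir_eq : ∀ g ∈ B, X ∈ g → ∀ h ∈ B, X ∈ h → (dir g = dir h ↔ g = h ∨ g ∩ h = {X})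
  surj : ∀ P, (∃ y, y ≠ X ∧ P = pt y) ∨ ∃ g ∈ B, X ∈ g ∧ P = dir g
  lines : ∀ b, b ∈ B' ↔ b = inf ∨ ∃ g ∈ B, X ∈ g ∧ b = ln g
  mem_pt : ∀ g ∈ B, X ∈ g → ∀ y, y ≠ X → (pt y ∈ ln g ↔ y ∈ g)
  mem_dir : ∀ g ∈ B, X ∈ g → ∀ h ∈ B, X ∈ h → (dir h ∈ ln g ↔ dir h = dir g)
  inf_pt : ∀ y, y ≠ X → pt y ∉ inf
  inf_dir : ∀ g ∈ B, X ∈ g → dir g ∈ inf

/-- package CL -/
def S_CL : Prop := ∀ (V : Type) [Fintype V] (n : ℕ) (B : Finset (Finset V)) (X : V), 2 ≤ n →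
  Inversive n B → ∃ (V' : Type) (_ : Fintype V') (B' : Finset (Finset V')) (pt : V → V')
    (dir : Finset V → V') (ln : Finset V → Finset V') (inf : Finset V'),
    Clos n B X B' pt dir ln inf

/-- package OV -/
def S_OV : Prop := ∀ (V V' : Type) [Fintype V] [Fintype V'] (n : ℕ) (B : Finset (Finset V))
  (X : V) (B' : Finset (Finset V')) (pt : V → V') (dir : Finset V → V')
  (ln : Finset V → Finset V') (inf : Finset V'), 2 ≤ n → Inc n B →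
  Clos n B X B' pt dir ln inf → ∀ k ∈ B, X ∉ k →
  Oval n B' (k.image pt) ∧ ∀ g ∈ B, X ∈ g → ∀ P ∈ ln g, P ∉ k.image pt →
    ∃ p ∈ g, p ∉ k ∧ ∀ A ∈ k, ∀ C ∈ k, Chord B' (k.image pt) P (pt A) (pt C) →
      (A ∉ g → C ∉ g ∧ Link B g k X p A C) ∧ (A ∈ g → g ∩ k = {A, C})

/-- package LINK -/
def S_LINK : Prop := ∀ (V : Type) [Fintype V] (n : ℕ) (B : Finset (Finset V)), 2 ≤ n →
  Inc n B → ∀ g ∈ B, ∀ k ∈ B, g ≠ k →
  ∃ I : {x : V // x ∈ g ∧ x ∉ k} → {x : V // x ∈ g ∧ x ∉ k} → Perm {y : V // y ∈ k ∧ y ∉ g},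
    (∀ x y, I x y = I y x) ∧ (∀ x y, I x y * I x y = 1) ∧
    (∀ A C x, ∃ y, I x y A = C) ∧ (∀ A x y y', I x y A = I x y' A → y = y') ∧
    ∀ x y A C, I x y A = C ↔ Link B g k (x : V) (y : V) (A : V) (C : V)

/-- package ALG -/
def S_ALG : Prop := ∀ (G K : Type) [Fintype G] [Fintype K] (I : G → G → Perm K),
  3 ≤ Fintype.card G → (∀ x y, I x y = I y x) → (∀ x y, I x y * I x y = 1) →
  (∀ A C x, ∃ y, I x y A = C) → (∀ A x y y', I x y A = I x y' A → y = y') →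
  (∀ x y z p, x ≠ y → x ≠ z → x ≠ p → y ≠ z → y ≠ p → z ≠ p →
    I p x * I z p * I y z * I x y = 1) →
  ∀ x y z w, (I x y * I x z * I x w) * (I x y * I x z * I x w) = 1

/-- package LOC -/
def S_LOC : Prop := ∀ (V : Type) [Fintype V] (n : ℕ) (B : Finset (Finset V)), 3 ≤ n →
  Inc n B → ∀ g ∈ B, ∀ k ∈ B, (fails B g k).Nonempty → 2 * (n - 3) ^ 2 ≤ (fails B g k).card

/-- package PAS -/
def S_PAS : Prop := ∀ (V V' : Type) [Fintype V] [Fintype V'] (n : ℕ) (B : Finset (Finset V))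
  (X : V) (B' : Finset (Finset V')) (pt : V → V') (dir : Finset V → V')
  (ln : Finset V → Finset V') (inf : Finset V'), 5 ≤ n → Inc n B →
  Clos n B X B' pt dir ln inf → ∀ k ∈ B, X ∉ k → ∀ g ∈ B, X ∈ g → fails B g k = ∅ →
  ∀ P ∈ ln g, ∀ Q ∈ ln g, ∀ R ∈ ln g, ¬ Fails B' (k.image pt) P Q R

/-- package CNT -/
def S_CNT : Prop := ∀ (V : Type) [Fintype V] (n : ℕ) (B : Finset (Finset V)), 100 ≤ n →
  ¬ IsPrimePow n → Inversive n B → ∀ k ∈ B, ∀ X, X ∉ k →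
  n ^ 2 ≤ 110000 * ((B.filter fun g => X ∈ g ∧ (fails B g k).Nonempty).card + 1)

/-- package GLOB -/
def S_GLOB : Prop := ∀ (V : Type) [Fintype V] (n : ℕ) (B : Finset (Finset V)), 1000 ≤ n →
  ¬ IsPrimePow n → Inversive n B →
  (∀ k ∈ B, ∀ X, X ∉ k →
    n ^ 2 ≤ 125000 * (B.filter fun g => X ∈ g ∧ 2 * (n - 3) ^ 2 ≤ (fails B g k).card).card) ∧
  n ^ 8 ≤ 70000 * ∑ g ∈ B, ∑ k ∈ B, (fails B g k).card

end Pool.Agent.U37.MQ
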